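import Mathlib
import Pool.Agent.H97.TreeDefs
import Pool.Agent.H97.Tree4

/-!
On a regular tree of degree `d ≥ 2` no factor of i.i.d. labels with finite expected coding
volume is almost surely a perfect matching. For `d = 3` and uniform labels on `[0,1]` this is
the question of the problem file.

Idea. If the expected coding volume is finite then, by invariance, resampling the label of one
vertex changes the output at only finitely many vertices almost surely. Two perfect matchings of
a tree which differ at only finitely many vertices are equal. So the output does not depend on any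
finite set of labels, hence it is almost surely constant, which contradicts equivariance.
-/

set_option autoImplicit false

open MeasureTheory Set
open scoped ENNReal

namespace Pool.Agent.Results.MP_b3cd0c_pr.NoFinitaryMatching

open Pool.Agent.H97.RT

theorem result {V S : Type*} [MeasurableSpace S] (ν : Measure S) [IsProbabilityMeasure ν]
    (G : SimpleGraph V) [G.LocallyFinite] (d : ℕ) (hd2 : 2 ≤ d)
    (htree : G.IsTree) (hreg : G.IsRegularOfDegree d) (o : V) :
    ¬ ∃ Φ : (V → S) → (G.edgeSet → Bool), IsFactor G Φ ∧
      (∫⁻ ω, codingVolume G Φ o ω ∂(lab V ν)) < ∞ ∧
      ∀ᵐ ω ∂(lab V ν), IsPM G (Φ ω) := by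
  rintro ⟨Φ, hΦ, hvol, hPM⟩
  exact no_finitary_matching ν hd2 htree hreg hΦ o hvol hPM

end Pool.Agent.Results.MP_b3cd0c_pr.NoFinitaryMatching
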